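import Pool.Agent.W728.PK.Stms

set_option autoImplicit false

namespace Pool.Agent.W368.PK

open Complex Metric Set Filter Topology MeasureTheory
open scoped Real ComplexConjugate
open Pool.Agent.W728.PK

theorem t_DIFF (h1 : PhiBound_stmt) (h2 : PhiDiff_stmt) (h3 : CL_stmt) : DIFF_stmt := by
  intro α hα0 hα1 ι p d F M hM
  classical
  obtain ⟨C0, hC0, hker⟩ := F.kernel
  refine ⟨2 * M + 4 * C0 + 4, by positivity, ?_⟩
  intro z w hz hw hzE hzw
  set δ := infDist z (ES p) with hδdef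
  have hcl : IsClosed (ES p) := h3 α hα0 hα1 ι p d F
  have h1mem : (1 : ℂ) ∈ ES p := mem_insert _ _
  have hδ : 0 < δ := (hcl.notMem_iff_infDist_pos ⟨1, h1mem⟩).1 hzE
  have hpi : ∀ i, δ ≤ ‖z - p i‖ := by
    intro i
    rw [← dist_eq_norm]
    exact infDist_le_dist_of_mem (mem_insert_of_mem _ (mem_range_self i))
  have hone : δ ≤ ‖1 - z‖ := by
    rw [norm_sub_rev, ← dist_eq_norm]
    exact infDist_le_dist_of_mem h1mem
  set A := ‖1 - z‖ with hA
  have hApos : 0 < A := lt_of_lt_of_le hδ hone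
  have hB : A / 2 ≤ ‖1 - w‖ := by
    have h4 : A ≤ ‖1 - w‖ + ‖z - w‖ := by
      have : (1 - z : ℂ) = (1 - w) - (z - w) := by ring
      rw [hA, this]
      exact norm_sub_le _ _
    linarith
  have hBpos : 0 < ‖1 - w‖ := by linarith
  have hz1 : (1 - z : ℂ) ≠ 0 := norm_ne_zero_iff.1 hApos.ne'
  have hw1 : (1 - w : ℂ) ≠ 0 := norm_ne_zero_iff.1 hBpos.ne'
  -- the variables
  have nz : ∀ i, ‖1 - z * conj (p i)‖ = ‖z - p i‖ := fun i => norm_w (F.norm_one i) z
  have nzδ : ∀ i, δ ≤ ‖1 - z * conj (p i)‖ := fun i => by rw [nz]; exact hpi i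
  have dif : ∀ i, ‖(1 - z * conj (p i)) - (1 - w * conj (p i))‖ = ‖z - w‖ := by
    intro i
    have : (1 - z * conj (p i)) - (1 - w * conj (p i)) = (w - z) * conj (p i) := by ring
    rw [this, norm_mul, RCLike.norm_conj, F.norm_one i, mul_one, norm_sub_rev]
  have nwδ : ∀ i, δ / 2 ≤ ‖1 - w * conj (p i)‖ := by
    intro i
    have h4 := dif i
    have h5 := norm_sub_norm_le (1 - z * conj (p i)) (1 - w * conj (p i))
    have h6 := nzδ i
    linarith
  have zne : ∀ i, 1 - z * conj (p i) ≠ 0 := fun i =>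
    norm_ne_zero_iff.1 (lt_of_lt_of_le hδ (nzδ i)).ne'
  have wne : ∀ i, 1 - w * conj (p i) ≠ 0 := fun i =>
    norm_ne_zero_iff.1 (lt_of_lt_of_le (half_pos hδ) (nwδ i)).ne'
  have zre : ∀ i, 0 ≤ (1 - z * conj (p i)).re := fun i => re_w (F.norm_one i) hz
  have wre : ∀ i, 0 ≤ (1 - w * conj (p i)).re := fun i => re_w (F.norm_one i) hw
  have dpos : ∀ i, 0 < d i ^ (1 - α) := fun i => Real.rpow_pos_of_pos (F.d_pos i) _
  have sz : Summable fun i => Phi α (d i) (1 - z * conj (p i)) := by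
    refine Summable.of_norm_bounded (g := fun i => d i ^ (1 - α) * δ⁻¹) (F.summ.mul_right _) ?_
    intro i
    refine (h1 α (d i) hα0 hα1 (F.d_pos i) _ (zne i) (zre i)).1.trans ?_
    rw [div_eq_mul_inv]
    exact mul_le_mul_of_nonneg_left (inv_anti₀ hδ (nzδ i)) (dpos i).le
  have sw : Summable fun i => Phi α (d i) (1 - w * conj (p i)) := by
    refine Summable.of_norm_bounded (g := fun i => d i ^ (1 - α) * (δ / 2)⁻¹)
      (F.summ.mul_right _) ?_
    intro i
    refine (h1 α (d i) hα0 hα1 (F.d_pos i) _ (wne i) (wre i)).1.trans ?_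
    rw [div_eq_mul_inv]
    exact mul_le_mul_of_nonneg_left (inv_anti₀ (half_pos hδ) (nwδ i)) (dpos i).le
  -- the finite sums
  set T := C0 / (δ * A) + δ ^ (-1 - α) with hT
  have hT0 : 0 ≤ T := by positivity
  set b : ι → ℝ := fun i => ‖Phi α (d i) (1 - z * conj (p i))‖ / ‖1 - z * conj (p i)‖ with hb
  have hb0 : ∀ i, 0 ≤ b i := fun i => by positivity
  have hfin : ∀ s : Finset ι, ∑ i ∈ s, b i ≤ T := by
    intro s
    rw [← Finset.sum_filter_add_sum_filter_not s (fun i => d i ≤ ‖z - p i‖)]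
    have e1 : ∑ i ∈ s with d i ≤ ‖z - p i‖, b i ≤ C0 / (δ * A) := by
      have k1 := hker z hz (fun e => hz1 (by rw [e, sub_self]))
        (s.filter fun i => d i ≤ ‖z - p i‖) (fun i hi => (Finset.mem_filter.1 hi).2)
      calc ∑ i ∈ s with d i ≤ ‖z - p i‖, b i
          ≤ ∑ i ∈ s with d i ≤ ‖z - p i‖, δ⁻¹ * (d i ^ (1 - α) / ‖z - p i‖) := by
            refine Finset.sum_le_sum fun i _ => ?_
            have g1 := (h1 α (d i) hα0 hα1 (F.d_pos i) _ (zne i) (zre i)).1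
            have g2 := nzδ i
            have g3 : 0 < ‖1 - z * conj (p i)‖ := lt_of_lt_of_le hδ g2
            simp only [hb]
            rw [← nz i, div_eq_mul_inv, mul_comm]
            exact mul_le_mul (inv_anti₀ hδ g2) g1 (norm_nonneg _) (inv_nonneg.2 hδ.le)
        _ = δ⁻¹ * ∑ i ∈ s with d i ≤ ‖z - p i‖, d i ^ (1 - α) / ‖z - p i‖ := by
            rw [Finset.mul_sum]
        _ ≤ δ⁻¹ * (C0 / A) := mul_le_mul_of_nonneg_left k1 (inv_nonneg.2 hδ.le)
        _ = C0 / (δ * A) := by field_simp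
    have e2 : ∑ i ∈ s with ¬ d i ≤ ‖z - p i‖, b i ≤ δ ^ (-1 - α) := by
      have hcard : (s.filter fun i => ¬ d i ≤ ‖z - p i‖).card ≤ 1 := by
        rw [Finset.card_le_one]
        intro i hi k hk
        by_contra hne
        have i1 := (Finset.mem_filter.1 hi).2
        have i2 := (Finset.mem_filter.1 hk).2
        push Not at i1 i2
        have i3 := F.sep i k hne
        have i4 : ‖p i - p k‖ ≤ ‖z - p i‖ + ‖z - p k‖ := by
          have : p i - p k = (z - p k) - (z - p i) := by ring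
          rw [this, add_comm]
          exact norm_sub_le _ _
        linarith
      have hterm : ∀ i ∈ (s.filter fun i => ¬ d i ≤ ‖z - p i‖), b i ≤ δ ^ (-1 - α) := by
        intro i _
        have g1 := (h1 α (d i) hα0 hα1 (F.d_pos i) _ (zne i) (zre i)).2.1
        have g2 := nzδ i
        have g3 : 0 < ‖1 - z * conj (p i)‖ := lt_of_lt_of_le hδ g2
        simp only [hb]
        calc ‖Phi α (d i) (1 - z * conj (p i))‖ / ‖1 - z * conj (p i)‖
            ≤ ‖1 - z * conj (p i)‖ ^ (-α) / ‖1 - z * conj (p i)‖ := by gcongr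
          _ = ‖1 - z * conj (p i)‖ ^ (-1 - α) := by
            rw [show (-1 - α : ℝ) = -α - 1 by ring, Real.rpow_sub g3, Real.rpow_one]
          _ ≤ δ ^ (-1 - α) := by
            exact Real.rpow_le_rpow_of_nonpos hδ g2 (by linarith)
      calc ∑ i ∈ s with ¬ d i ≤ ‖z - p i‖, b i
          ≤ (s.filter fun i => ¬ d i ≤ ‖z - p i‖).card • (δ ^ (-1 - α)) :=
            Finset.sum_le_card_nsmul _ _ _ hterm
        _ ≤ 1 • (δ ^ (-1 - α)) := by
            apply nsmul_le_nsmul_left (by positivity) hcard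
        _ = δ ^ (-1 - α) := one_nsmul _
    rw [hT]
    linarith
  have hbs : Summable b := summable_of_sum_le hb0 hfin
  have hbt : ∑' i, b i ≤ T := hbs.tsum_le_of_sum_le hfin
  -- the difference of the sums
  have hdiff : ‖∑' i, (Phi α (d i) (1 - z * conj (p i)) - Phi α (d i) (1 - w * conj (p i)))‖ ≤
      4 * ‖z - w‖ * T := by
    have hs2 : HasSum (fun i => 4 * ‖z - w‖ * b i) (4 * ‖z - w‖ * ∑' i, b i) :=
      hbs.hasSum.mul_left _
    refine (tsum_of_norm_bounded hs2 ?_).trans ?_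
    · intro i
      have g1 := h2 α (d i) hα0 hα1 (F.d_pos i) (1 - z * conj (p i)) (1 - w * conj (p i))
        (zne i) (zre i) (wre i) (by
          rw [dif i]
          have := nzδ i
          linarith)
      rw [dif i] at g1
      refine g1.trans (le_of_eq ?_)
      simp only [hb]
      ring
    · exact mul_le_mul_of_nonneg_left hbt (by positivity)
  have hG : G α M p d z - G α M p d w = (M : ℂ) * (z - w) / ((1 - z) * (1 - w)) +
      ∑' i, (Phi α (d i) (1 - z * conj (p i)) - Phi α (d i) (1 - w * conj (p i))) := by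
    unfold G
    rw [sz.tsum_sub sw]
    have : (M : ℂ) * (z - w) / ((1 - z) * (1 - w)) = (M : ℂ) / (1 - z) - (M : ℂ) / (1 - w) := by
      field_simp
      ring
    rw [this]
    ring
  have hfirst : ‖(M : ℂ) * (z - w) / ((1 - z) * (1 - w))‖ ≤ 2 * M * ‖z - w‖ / A ^ 2 := by
    rw [norm_div, norm_mul, norm_mul, Complex.norm_real, Real.norm_eq_abs, abs_of_pos hM, ← hA]
    rw [div_le_div_iff₀ (by positivity) (by positivity)]
    have h4 : A ^ 2 ≤ 2 * (A * ‖1 - w‖) := by nlinarith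
    have h5 : 0 ≤ M * ‖z - w‖ := by positivity
    nlinarith [mul_le_mul_of_nonneg_left h4 h5]
  rw [hG]
  refine (norm_add_le _ _).trans ?_
  refine (add_le_add hfirst hdiff).trans ?_
  rw [hT]
  have k1 : 0 ≤ ‖z - w‖ * (1 / A ^ 2) := by positivity
  have k2 : 0 ≤ ‖z - w‖ * (1 / (δ * A)) := by positivity
  have k3 : 0 ≤ ‖z - w‖ * δ ^ (-1 - α) := by positivity
  have e1 : 2 * M * ‖z - w‖ / A ^ 2 + 4 * ‖z - w‖ * (C0 / (δ * A) + δ ^ (-1 - α)) =
      2 * M * (‖z - w‖ * (1 / A ^ 2)) + 4 * C0 * (‖z - w‖ * (1 / (δ * A))) +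
        4 * (‖z - w‖ * δ ^ (-1 - α)) := by ring
  have e2 : (2 * M + 4 * C0 + 4) * ‖z - w‖ * (1 / A ^ 2 + 1 / (δ * A) + δ ^ (-1 - α)) =
      (2 * M + 4 * C0 + 4) * (‖z - w‖ * (1 / A ^ 2)) +
      (2 * M + 4 * C0 + 4) * (‖z - w‖ * (1 / (δ * A))) +
      (2 * M + 4 * C0 + 4) * (‖z - w‖ * δ ^ (-1 - α)) := by ring
  rw [e1, e2]
  have l1 : 2 * M * (‖z - w‖ * (1 / A ^ 2)) ≤ (2 * M + 4 * C0 + 4) * (‖z - w‖ * (1 / A ^ 2)) :=
    mul_le_mul_of_nonneg_right (by linarith) k1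
  have l2 : 4 * C0 * (‖z - w‖ * (1 / (δ * A))) ≤
      (2 * M + 4 * C0 + 4) * (‖z - w‖ * (1 / (δ * A))) :=
    mul_le_mul_of_nonneg_right (by linarith) k2
  have l3 : 4 * (‖z - w‖ * δ ^ (-1 - α)) ≤ (2 * M + 4 * C0 + 4) * (‖z - w‖ * δ ^ (-1 - α)) :=
    mul_le_mul_of_nonneg_right (by linarith) k3
  linarith

end Pool.Agent.W368.PK
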